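import Pool.Agent.helper44.NLT.Spec

set_option autoImplicit false

open Complex Metric Set Filter Topology MeasureTheory MPS
open Pool.Agent.helper98.ILF Pool.Agent.helper16.Multibrot

noncomputable section

namespace NLT

/-- the derivative of the iterate. -/
def ATT_D (n : ℕ) : ℕ → ℂ × ℂ → ℂ
  | 0, _ => 1
  | p + 1, y => (n : ℂ) * ((fun w : ℂ => w ^ n + y.1)^[p] y.2) ^ (n - 1) * ATT_D n p y

theorem ATT_contF (n p : ℕ) : Continuous fun y : ℂ × ℂ => (fun w : ℂ => w ^ n + y.1)^[p] y.2 := by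
  induction p with
  | zero =>
    simp only [Function.iterate_zero, id]
    exact continuous_snd
  | succ p ih =>
    have h : (fun y : ℂ × ℂ => (fun w : ℂ => w ^ n + y.1)^[p + 1] y.2) =
        fun y : ℂ × ℂ => ((fun w : ℂ => w ^ n + y.1)^[p] y.2) ^ n + y.1 := by
      funext y
      rw [Function.iterate_succ_apply']
    rw [h]
    exact (ih.pow n).add continuous_fst

theorem ATT_contD (n p : ℕ) : Continuous (ATT_D n p) := by
  induction p with
  | zero => exact continuous_const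
  | succ p ih => exact (continuous_const.mul ((ATT_contF n p).pow (n - 1))).mul ih

theorem ATT_deriv (n p : ℕ) (x z : ℂ) :
    HasDerivAt ((fun w : ℂ => w ^ n + x)^[p]) (ATT_D n p (x, z)) z := by
  induction p with
  | zero =>
    simp only [Function.iterate_zero]
    exact hasDerivAt_id z
  | succ p ih =>
    have h1 : HasDerivAt (fun w : ℂ => w ^ n + x)
        ((n : ℂ) * ((fun w : ℂ => w ^ n + x)^[p] z) ^ (n - 1)) ((fun w : ℂ => w ^ n + x)^[p] z) :=
      (hasDerivAt_pow n _).add_const x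
    have h2 := h1.comp z ih
    rw [Function.iterate_succ']
    exact h2

theorem ATT : ATT_stmt := by
  intro n c₁ hn hc
  obtain ⟨z₀, p, hp, hz, hl⟩ := hc
  have hD0 : ‖ATT_D n p (c₁, z₀)‖ < 1 := by
    rw [← (ATT_deriv n p c₁ z₀).deriv]
    exact hl
  obtain ⟨q, hq1, hq2⟩ := exists_between hD0
  have hq0 : 0 < q := lt_of_le_of_lt (norm_nonneg _) hq1
  have hopen : IsOpen {y : ℂ × ℂ | ‖ATT_D n p y‖ < q} :=
    isOpen_lt (ATT_contD n p).norm continuous_const
  obtain ⟨r, hr, hrsub⟩ := Metric.isOpen_iff.1 hopen (c₁, z₀) hq1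
  set ρ : ℝ := r / 2 with hρdef
  have hρ : 0 < ρ := by positivity
  have hDq : ∀ x ∈ ball c₁ r, ∀ z ∈ closedBall z₀ ρ, ‖ATT_D n p (x, z)‖ ≤ q := by
    intro x hx z hz
    have h1 : ((x, z) : ℂ × ℂ) ∈ ball ((c₁, z₀) : ℂ × ℂ) r := by
      rw [mem_ball, Prod.dist_eq]
      rw [mem_ball] at hx
      rw [mem_closedBall] at hz
      exact max_lt hx (by simp only; linarith)
    exact le_of_lt (hrsub h1)
  have hc1 : Continuous fun x : ℂ => (fun w : ℂ => w ^ n + x)^[p] z₀ :=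
    (ATT_contF n p).comp (continuous_id.prodMk continuous_const)
  have hev1 : ∀ᶠ x in 𝓝 c₁, ‖(fun w : ℂ => w ^ n + x)^[p] z₀ - z₀‖ < (1 - q) * ρ := by
    have h1 : Tendsto (fun x : ℂ => ‖(fun w : ℂ => w ^ n + x)^[p] z₀ - z₀‖) (𝓝 c₁) (𝓝 0) := by
      have h2 := ((hc1.sub continuous_const).norm (f := fun x : ℂ => (fun w : ℂ => w ^ n + x)^[p] z₀ - z₀)).tendsto c₁
      simp only [hz, sub_self, norm_zero] at h2
      exact h2
    exact h1.eventually (gt_mem_nhds (mul_pos (by linarith) hρ))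
  obtain ⟨j, hj⟩ := critical_mem_basin hn hz hl (half_pos hρ)
  have hj' : (fun w : ℂ => w ^ n + c₁)^[j + 1] 0 ∈ ball z₀ ρ := by
    rw [Function.iterate_succ_apply]
    have h0 : (0 : ℂ) ^ n + c₁ = c₁ := by
      rw [zero_pow (by omega), zero_add]
    rw [h0]
    exact ball_subset_ball (by linarith) hj
  have hc2 : Continuous fun x : ℂ => (fun w : ℂ => w ^ n + x)^[j + 1] 0 :=
    (ATT_contF n (j + 1)).comp (continuous_id.prodMk continuous_const)
  have hev2 : ∀ᶠ x in 𝓝 c₁, (fun w : ℂ => w ^ n + x)^[j + 1] 0 ∈ ball z₀ ρ :=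
    hc2.continuousAt.eventually (isOpen_ball.mem_nhds hj')
  obtain ⟨δ, hδ, hδs⟩ := Metric.eventually_nhds_iff_ball.1 ((hev1.and hev2).and (ball_mem_nhds c₁ hr))
  refine ⟨p, j + 1, δ, hp, hδ, ?_⟩
  intro x hx
  obtain ⟨⟨h1, h2⟩, h3⟩ := hδs x hx
  have hlip : ∀ u ∈ closedBall z₀ ρ, ∀ v ∈ closedBall z₀ ρ,
      ‖(fun w : ℂ => w ^ n + x)^[p] v - (fun w : ℂ => w ^ n + x)^[p] u‖ ≤ q * ‖v - u‖ := by
    intro u hu v hv
    exact (convex_closedBall z₀ ρ).norm_image_sub_le_of_norm_hasDerivWithin_le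
      (fun z _ => (ATT_deriv n p x z).hasDerivWithinAt) (fun z hz => hDq x h3 z hz) hu hv
  have hmaps : ∀ u ∈ closedBall z₀ ρ, (fun w : ℂ => w ^ n + x)^[p] u ∈ closedBall z₀ ρ := by
    intro u hu
    have h4 := hlip z₀ (mem_closedBall_self hρ.le) u hu
    rw [mem_closedBall, dist_eq_norm] at hu ⊢
    have h5 : ‖(fun w : ℂ => w ^ n + x)^[p] u - z₀‖ ≤
        ‖(fun w : ℂ => w ^ n + x)^[p] u - (fun w : ℂ => w ^ n + x)^[p] z₀‖ +
          ‖(fun w : ℂ => w ^ n + x)^[p] z₀ - z₀‖ := by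
      have := norm_add_le ((fun w : ℂ => w ^ n + x)^[p] u - (fun w : ℂ => w ^ n + x)^[p] z₀)
        ((fun w : ℂ => w ^ n + x)^[p] z₀ - z₀)
      rwa [sub_add_sub_cancel] at this
    have h6 : q * ‖u - z₀‖ ≤ q * ρ := mul_le_mul_of_nonneg_left hu hq0.le
    linarith
  set y : ℕ → ℂ := fun k => xi n (j + 1 + k * p) x with hydef
  have hy0 : y 0 ∈ closedBall z₀ ρ := by
    have h4 : y 0 = (fun w : ℂ => w ^ n + x)^[j + 1] 0 := by
      simp only [hydef, xi, zero_mul, add_zero]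
    rw [h4]
    exact ball_subset_closedBall h2
  have hys : ∀ k, y (k + 1) = (fun w : ℂ => w ^ n + x)^[p] (y k) := by
    intro k
    simp only [hydef, xi]
    rw [← Function.iterate_add_apply]
    congr 1
    have h4 : j + 1 + (k + 1) * p = p + (j + 1 + k * p) := by ring
    rw [h4]
  have hyb : ∀ k, y k ∈ closedBall z₀ ρ := by
    intro k
    induction k with
    | zero => exact hy0
    | succ k ih =>
      rw [hys k]
      exact hmaps _ ih
  have hdist : ∀ k, dist (y k) (y (k + 1)) ≤ ‖y 1 - y 0‖ * q ^ k := by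
    intro k
    induction k with
    | zero =>
      rw [pow_zero, mul_one, dist_comm, dist_eq_norm]
    | succ k ih =>
      have h4 := hlip _ (hyb k) _ (hyb (k + 1))
      rw [← hys k, ← hys (k + 1)] at h4
      rw [dist_comm, dist_eq_norm]
      rw [dist_comm, dist_eq_norm] at ih
      calc ‖y (k + 1 + 1) - y (k + 1)‖ ≤ q * ‖y (k + 1) - y k‖ := h4
        _ ≤ q * (‖y 1 - y 0‖ * q ^ k) := mul_le_mul_of_nonneg_left ih hq0.le
        _ = ‖y 1 - y 0‖ * q ^ (k + 1) := by ring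
  have hcau : CauchySeq y := cauchySeq_of_le_geometric q _ hq2 hdist
  obtain ⟨z, hzlim⟩ := cauchySeq_tendsto_of_complete hcau
  have hzmem : z ∈ closedBall z₀ ρ := isClosed_closedBall.mem_of_tendsto hzlim (Eventually.of_forall hyb)
  refine ⟨z, hzlim, ?_, ?_⟩
  · have h4 : Tendsto (fun k => y (k + 1)) atTop (𝓝 z) := hzlim.comp (tendsto_add_atTop_nat 1)
    have h5 : Tendsto (fun k => y (k + 1)) atTop (𝓝 ((fun w : ℂ => w ^ n + x)^[p] z)) := by
      have h6 : (fun k => y (k + 1)) = fun k => (fun w : ℂ => w ^ n + x)^[p] (y k) := funext hys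
      rw [h6]
      exact ((ATT_deriv n p x z).continuousAt.tendsto).comp hzlim
    exact tendsto_nhds_unique h5 h4
  · rw [(ATT_deriv n p x z).deriv]
    exact lt_of_le_of_lt (hDq x h3 z hzmem) hq2

end NLT
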